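import Pool.Agent.H482R3.EA.Stm

/-!
# Conjunction and substitution of recursively enumerable predicates (project EA, task REC)
-/

set_option autoImplicit false

namespace Pool.Agent.H51R5.EA

open Pool.Agent.H482R3.EA

theorem t_REC : S_REC := by
  intro α β _ _
  refine ⟨?_, ?_⟩
  · intro p q hp hq
    have h : Partrec fun a => (Part.assert (p a) fun _ => Part.some ()).bind
        fun _ => Part.assert (q a) fun _ => Part.some () :=
      Partrec.bind hp (Partrec.comp hq Computable.fst)
    refine h.of_eq fun a => ?_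
    apply Part.ext
    intro b
    simp only [Part.mem_bind_iff, Part.mem_assert_iff, Part.mem_some_iff]
    constructor
    · rintro ⟨_, ⟨hpa, _⟩, hqa, hb⟩
      exact ⟨⟨hpa, hqa⟩, hb⟩
    · rintro ⟨⟨hpa, hqa⟩, hb⟩
      exact ⟨(), ⟨hpa, trivial⟩, hqa, hb⟩
  · intro p f hp hf
    exact Partrec.comp hp hf

end Pool.Agent.H51R5.EA
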